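import Mathlib

/-!
Elementary lemmas on periodic solutions: the planar oscillator, a maximum principle and its
quasi-periodic version.
-/

open Complex Set

namespace Pool.Agent.X98.DDE

/-- a periodic antitone function is constant -/
lemma const_of_antitone_periodic {k : ℝ → ℝ} (hk : Antitone k) {p : ℝ} (hp : 0 < p)
    (hper : ∀ t, k (t + p) = k t) (s t : ℝ) : k s = k t := by
  have hn : ∀ (n : ℕ) (t : ℝ), k (t + n * p) = k t := by
    intro n
    induction n with
    | zero => intro t; simp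
    | succ n ih =>
      intro t
      have : t + ((n + 1 : ℕ) : ℝ) * p = (t + n * p) + p := by push_cast; ring
      rw [this, hper, ih]
  have key : ∀ s t : ℝ, k s ≤ k t := by
    intro s t
    obtain ⟨n, hn1⟩ := exists_nat_gt ((t - s) / p)
    have h1 : t ≤ s + n * p := by
      have := (div_lt_iff₀ hp).mp hn1
      linarith
    rw [← hn n s]
    exact hk h1
  exact le_antisymm (key s t) (key t s)

/-- the planar oscillator: a periodic solution through `(x(0), 0)`, `x(0) > 0` is the unit circle -/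
lemma oscillator {x y : ℝ → ℝ} {α p : ℝ} (hα : 0 < α) (hp : 0 < p)
    (hx : ∀ t, HasDerivAt x (α * (-y t + x t * (1 - x t ^ 2 - y t ^ 2))) t)
    (hy : ∀ t, HasDerivAt y (α * (x t + y t * (1 - x t ^ 2 - y t ^ 2))) t)
    (hxp : ∀ t, x (t + p) = x t) (hyp : ∀ t, y (t + p) = y t) (hx0 : 0 < x 0) (hy0 : y 0 = 0) (t : ℝ) :
    x t = Real.cos (α * t) ∧ y t = Real.sin (α * t) := by
  set k : ℝ → ℝ := fun t => (1 - x t ^ 2 - y t ^ 2) ^ 2 with hk
  have hkd : ∀ t, HasDerivAt k (-(4 * α * (x t ^ 2 + y t ^ 2) * k t)) t := by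
    intro t
    have h := (((((hx t).fun_pow 2).const_sub 1).fun_sub ((hy t).fun_pow 2))).fun_pow 2
    refine h.congr_deriv ?_
    simp only [hk]
    push_cast
    ring
  have hanti : Antitone k := by
    refine antitone_of_deriv_nonpos (fun t => (hkd t).differentiableAt) fun t => ?_
    rw [(hkd t).deriv]
    have : 0 ≤ k t := sq_nonneg _
    have h2 : 0 ≤ 4 * α * (x t ^ 2 + y t ^ 2) * k t := by positivity
    linarith
  have hper : ∀ t, k (t + p) = k t := fun t => by simp only [hk, hxp, hyp]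
  have hconst := const_of_antitone_periodic hanti hp hper
  have hk0 : k 0 = 0 := by
    have h1 : HasDerivAt k 0 0 := by
      have : k = fun _ => k 0 := funext fun t => hconst t 0
      rw [this]; exact hasDerivAt_const _ _
    have h2 := h1.unique (hkd 0)
    have h3 : 0 < 4 * α * (x 0 ^ 2 + y 0 ^ 2) := by positivity
    have h4 : 4 * α * (x 0 ^ 2 + y 0 ^ 2) * k 0 = 0 := by linarith
    rcases mul_eq_zero.mp h4 with h | h
    · exact absurd h h3.ne'
    · exact h
  have hone : ∀ t, 1 - x t ^ 2 - y t ^ 2 = 0 := fun t => by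
    have : k t = 0 := (hconst t 0).trans hk0
    exact pow_eq_zero_iff (two_ne_zero) |>.mp this
  have hx1 : x 0 = 1 := by
    have := hone 0
    rw [hy0] at this
    nlinarith
  have hxd : ∀ t, HasDerivAt x (α * (-y t)) t := fun t => (hx t).congr_deriv (by rw [hone]; ring)
  have hyd : ∀ t, HasDerivAt y (α * x t) t := fun t => (hy t).congr_deriv (by rw [hone]; ring)
  have hc : ∀ t, HasDerivAt (fun t => Real.cos (α * t)) (-(Real.sin (α * t) * α)) t := fun t => by
    have := ((hasDerivAt_id t).const_mul α).cos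
    simpa using this
  have hs : ∀ t, HasDerivAt (fun t => Real.sin (α * t)) (Real.cos (α * t) * α) t := fun t => by
    have := ((hasDerivAt_id t).const_mul α).sin
    simpa using this
  have hA : ∀ t, x t * Real.cos (α * t) + y t * Real.sin (α * t) = 1 := by
    have hd : ∀ t, HasDerivAt (fun t => x t * Real.cos (α * t) + y t * Real.sin (α * t)) 0 t := fun t =>
      (((hxd t).fun_mul (hc t)).fun_add ((hyd t).fun_mul (hs t))).congr_deriv (by ring)
    intro t
    have := is_const_of_deriv_eq_zero (fun t => (hd t).differentiableAt) (fun t => (hd t).deriv) t 0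
    exact this.trans (by simp [hx1, hy0])
  have hB : ∀ t, y t * Real.cos (α * t) - x t * Real.sin (α * t) = 0 := by
    have hd : ∀ t, HasDerivAt (fun t => y t * Real.cos (α * t) - x t * Real.sin (α * t)) 0 t := fun t =>
      (((hyd t).fun_mul (hc t)).fun_sub ((hxd t).fun_mul (hs t))).congr_deriv (by ring)
    intro t
    have := is_const_of_deriv_eq_zero (fun t => (hd t).differentiableAt) (fun t => (hd t).deriv) t 0
    exact this.trans (by simp [hy0])
  have h1 := Real.sin_sq_add_cos_sq (α * t)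
  constructor
  · linear_combination Real.cos (α * t) * hA t - Real.sin (α * t) * hB t - x t * h1
  · linear_combination Real.sin (α * t) * hA t + Real.cos (α * t) * hB t - y t * h1

/-- maximum principle on the line -/
lemma max_principle {y v : ℝ → ℂ} {e : ℝ → ℂ} {α p R : ℝ} (hα : 0 < α) (hp : 0 < p)
    (hy : ∀ t, HasDerivAt y (α * v t) t)
    (hv : ∀ t, HasDerivAt v (α * (2 * y t - e t * y (t - R))) t)
    (he : ∀ t, ‖e t‖ ≤ 1) (hper : ∀ t, y (t + p) = y t) (t : ℝ) : y t = 0 := by
  have hcont : Continuous y := continuous_iff_continuousAt.mpr fun t => (hy t).continuousAt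
  -- a maximum of the norm
  obtain ⟨t0, -, ht0⟩ : ∃ t0 ∈ Icc (0 : ℝ) p, ∀ s ∈ Icc (0 : ℝ) p, ‖y s‖ ≤ ‖y t0‖ :=
    isCompact_Icc.exists_isMaxOn (nonempty_Icc.mpr hp.le) hcont.norm.continuousOn
  have hmax : ∀ s, ‖y s‖ ≤ ‖y t0‖ := by
    intro s
    have hP : Function.Periodic y p := hper
    obtain ⟨s', hs', hs2⟩ := hP.exists_mem_Ico₀ hp s
    rw [hs2]
    exact ht0 s' (Ico_subset_Icc_self hs')
  -- the functions `G` and `H`
  have hyre : ∀ t, HasDerivAt (fun t => (y t).re) (α * (v t).re) t := fun t => by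
    exact ((Complex.reCLM.hasFDerivAt (x := y t)).comp_hasDerivAt t (hy t)).congr_deriv (by simp)
  have hyim : ∀ t, HasDerivAt (fun t => (y t).im) (α * (v t).im) t := fun t => by
    exact ((Complex.imCLM.hasFDerivAt (x := y t)).comp_hasDerivAt t (hy t)).congr_deriv (by simp)
  have hvre : ∀ t, HasDerivAt (fun t => (v t).re) (α * (2 * (y t).re - (e t * y (t - R)).re)) t := fun t => by
    exact ((Complex.reCLM.hasFDerivAt (x := v t)).comp_hasDerivAt t (hv t)).congr_deriv (by simp)
  have hvim : ∀ t, HasDerivAt (fun t => (v t).im) (α * (2 * (y t).im - (e t * y (t - R)).im)) t := fun t => by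
    exact ((Complex.imCLM.hasFDerivAt (x := v t)).comp_hasDerivAt t (hv t)).congr_deriv (by simp)
  set G : ℝ → ℝ := fun t => (y t).re ^ 2 + (y t).im ^ 2 with hG
  set H : ℝ → ℝ := fun t => 2 * α * ((y t).re * (v t).re + (y t).im * (v t).im) with hH
  have hGn : ∀ t, G t = ‖y t‖ ^ 2 := fun t => by
    rw [hG, ← Complex.normSq_eq_norm_sq, Complex.normSq_apply]; ring
  have hGd : ∀ t, HasDerivAt G (H t) t := fun t =>
    (((hyre t).fun_pow 2).fun_add ((hyim t).fun_pow 2)).congr_deriv (by simp only [hH]; push_cast; ring)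
  have hHd : ∀ t, HasDerivAt H (2 * α ^ 2 * ((v t).re ^ 2 + (v t).im ^ 2 + 2 * G t -
      ((y t).re * (e t * y (t - R)).re + (y t).im * (e t * y (t - R)).im))) t := fun t =>
    ((((hyre t).fun_mul (hvre t)).fun_add ((hyim t).fun_mul (hvim t))).const_mul (2 * α)).congr_deriv (by
      simp only [hG]; ring)
  by_contra hne
  have hpos : 0 < ‖y t0‖ := lt_of_lt_of_le (norm_pos_iff.mpr hne) (hmax t)
  have hH0 : H t0 = 0 := by
    have hloc : IsLocalMax G t0 := Filter.Eventually.of_forall fun s => by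
      change G s ≤ G t0
      rw [hGn, hGn]
      exact pow_le_pow_left₀ (norm_nonneg _) (hmax s) 2
    exact hloc.hasDerivAt_eq_zero (hGd t0)
  have hH1 : 0 < 2 * α ^ 2 * ((v t0).re ^ 2 + (v t0).im ^ 2 + 2 * G t0 -
      ((y t0).re * (e t0 * y (t0 - R)).re + (y t0).im * (e t0 * y (t0 - R)).im)) := by
    set q := e t0 * y (t0 - R) with hq
    have h1 : q.re ^ 2 + q.im ^ 2 ≤ G t0 := by
      have h2 : ‖q‖ ≤ ‖y t0‖ := by
        rw [hq, norm_mul]
        calc ‖e t0‖ * ‖y (t0 - R)‖ ≤ 1 * ‖y t0‖ :=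
              mul_le_mul (he t0) (hmax _) (norm_nonneg _) zero_le_one
          _ = ‖y t0‖ := one_mul _
      have h3 : q.re ^ 2 + q.im ^ 2 = ‖q‖ ^ 2 := by
        rw [← Complex.normSq_eq_norm_sq, Complex.normSq_apply]; ring
      rw [h3, hGn]
      exact pow_le_pow_left₀ (norm_nonneg _) h2 2
    have h2 : (y t0).re * q.re + (y t0).im * q.im ≤ G t0 := by
      have : G t0 = (y t0).re ^ 2 + (y t0).im ^ 2 := rfl
      nlinarith [sq_nonneg ((y t0).re - q.re), sq_nonneg ((y t0).im - q.im)]
    have h3 : 0 < G t0 := by rw [hGn]; positivity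
    have h4 : 0 ≤ (v t0).re ^ 2 + (v t0).im ^ 2 := by positivity
    have h5 : 0 < 2 * α ^ 2 := by positivity
    exact mul_pos h5 (by linarith)
  -- `H > 0` to the right of `t0`
  have hev : ∀ᶠ s in nhdsWithin t0 (Ioi t0), 0 < H s := by
    have := (hHd t0).hasDerivWithinAt (s := Ioi t0)
    rw [hasDerivWithinAt_iff_tendsto_slope'] at this
    · have h2 := this.eventually (lt_mem_nhds hH1)
      filter_upwards [h2, self_mem_nhdsWithin] with s hs hs2
      rw [slope_def_field, hH0, sub_zero] at hs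
      have hs3 : 0 < s - t0 := sub_pos.mpr hs2
      have := mul_pos hs hs3
      rwa [div_mul_cancel₀ _ hs3.ne'] at this
    · simp
  rw [eventually_nhdsWithin_iff, Metric.eventually_nhds_iff] at hev
  obtain ⟨ε, hε, hev⟩ := hev
  have hmono : StrictMonoOn G (Icc t0 (t0 + ε / 2)) := by
    refine strictMonoOn_of_deriv_pos (convex_Icc _ _)
      (fun s _ => (hGd s).continuousAt.continuousWithinAt) fun s hs => ?_
    rw [interior_Icc] at hs
    rw [(hGd s).deriv]
    refine hev ?_ hs.1
    rw [Real.dist_eq, abs_of_pos (by linarith [hs.1])]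
    linarith [hs.2]
  have h1 := hmono (left_mem_Icc.mpr (by linarith)) (right_mem_Icc.mpr (by linarith)) (by linarith : t0 < t0 + ε / 2)
  rw [hGn, hGn] at h1
  have h2 := hmax (t0 + ε / 2)
  have h3 := pow_le_pow_left₀ (norm_nonneg _) h2 2
  linarith

/-- the quasi-periodic version on `[0, p]`, the delay being the period -/
lemma quasi {u v e : ℝ → ℂ} {μ : ℂ} {p : ℝ} (hp : 0 < p) (hμ : ‖μ‖ = 1)
    (hu : ∀ t ∈ Icc 0 p, HasDerivWithinAt u (v t) (Icc 0 p) t)
    (hv : ∀ t ∈ Icc 0 p, HasDerivWithinAt v (2 * u t - e t * u t) (Icc 0 p) t)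
    (he : ∀ t, ‖e t‖ ≤ 1) (hup : u p = μ * u 0) (hvp : v p = μ * v 0) :
    ∀ t ∈ Icc 0 p, u t = 0 ∧ v t = 0 := by
  set H : ℝ → ℝ := fun t => (u t).re * (v t).re + (u t).im * (v t).im with hH
  set H' : ℝ → ℝ := fun t => (v t).re ^ 2 + (v t).im ^ 2 + 2 * ((u t).re ^ 2 + (u t).im ^ 2) -
    (e t).re * ((u t).re ^ 2 + (u t).im ^ 2) with hH'
  have hure : ∀ t ∈ Icc 0 p, HasDerivWithinAt (fun t => (u t).re) (v t).re (Icc 0 p) t := fun t ht =>
    (Complex.reCLM.hasFDerivAt (x := u t)).comp_hasDerivWithinAt t (hu t ht)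
  have huim : ∀ t ∈ Icc 0 p, HasDerivWithinAt (fun t => (u t).im) (v t).im (Icc 0 p) t := fun t ht =>
    (Complex.imCLM.hasFDerivAt (x := u t)).comp_hasDerivWithinAt t (hu t ht)
  have hvre : ∀ t ∈ Icc 0 p, HasDerivWithinAt (fun t => (v t).re) (2 * u t - e t * u t).re (Icc 0 p) t :=
    fun t ht => (Complex.reCLM.hasFDerivAt (x := v t)).comp_hasDerivWithinAt t (hv t ht)
  have hvim : ∀ t ∈ Icc 0 p, HasDerivWithinAt (fun t => (v t).im) (2 * u t - e t * u t).im (Icc 0 p) t :=
    fun t ht => (Complex.imCLM.hasFDerivAt (x := v t)).comp_hasDerivWithinAt t (hv t ht)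
  have hd : ∀ t ∈ Icc 0 p, HasDerivWithinAt H (H' t) (Icc 0 p) t := fun t ht =>
    (((hure t ht).fun_mul (hvre t ht)).fun_add ((huim t ht).fun_mul (hvim t ht))).congr_deriv (by
      simp only [hH', sub_re, sub_im, mul_re, mul_im, re_ofNat, im_ofNat]; ring)
  have hge : ∀ t, (v t).re ^ 2 + (v t).im ^ 2 + ((u t).re ^ 2 + (u t).im ^ 2) ≤ H' t := fun t => by
    have h1 : (e t).re ≤ 1 := (Complex.re_le_norm _).trans (he t)
    have h2 : 0 ≤ (u t).re ^ 2 + (u t).im ^ 2 := by positivity
    simp only [hH']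
    nlinarith
  have hmono : MonotoneOn H (Icc 0 p) := by
    refine monotoneOn_of_deriv_nonneg (convex_Icc _ _) (fun t ht => (hd t ht).continuousWithinAt) ?_ ?_
    · intro t ht
      rw [interior_Icc] at ht ⊢
      exact (((hd t (Ioo_subset_Icc_self ht)).hasDerivAt (Icc_mem_nhds ht.1 ht.2)).differentiableAt).differentiableWithinAt
    · intro t ht
      rw [interior_Icc] at ht
      rw [((hd t (Ioo_subset_Icc_self ht)).hasDerivAt (Icc_mem_nhds ht.1 ht.2)).deriv]
      have := hge t
      have : 0 ≤ (v t).re ^ 2 + (v t).im ^ 2 + ((u t).re ^ 2 + (u t).im ^ 2) := by positivity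
      linarith [hge t]
  have hend : H p = H 0 := by
    have h1 : ∀ t, H t = (starRingEnd ℂ (u t) * v t).re := fun t => by
      simp only [hH, mul_re, conj_re, conj_im]; ring
    rw [h1, h1, hup, hvp]
    have : starRingEnd ℂ (μ * u 0) * (μ * v 0) = (μ * starRingEnd ℂ μ) * (starRingEnd ℂ (u 0) * v 0) := by
      rw [map_mul]; ring
    rw [this, Complex.mul_conj, Complex.normSq_eq_norm_sq, hμ]
    simp
  have hconst : ∀ t ∈ Icc 0 p, H t = H 0 := fun t ht => by
    apply le_antisymm
    · rw [← hend]; exact hmono ht (right_mem_Icc.mpr hp.le) ht.2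
    · exact hmono (left_mem_Icc.mpr hp.le) ht ht.1
  intro t ht
  have h0 : HasDerivWithinAt H 0 (Icc 0 p) t :=
    (hasDerivWithinAt_const t (Icc 0 p) (H 0)).congr (fun s hs => hconst s hs) (hconst t ht)
  have h1 : H' t = 0 := ((uniqueDiffOn_Icc hp) t ht).eq_deriv _ (hd t ht) h0
  have h2 := hge t
  rw [h1] at h2
  have a1 := sq_nonneg (v t).re
  have a2 := sq_nonneg (v t).im
  have a3 := sq_nonneg (u t).re
  have a4 := sq_nonneg (u t).im
  constructor
  · apply Complex.ext
    · exact pow_eq_zero_iff two_ne_zero |>.mp (by linarith)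
    · exact pow_eq_zero_iff two_ne_zero |>.mp (by linarith)
  · apply Complex.ext
    · exact pow_eq_zero_iff two_ne_zero |>.mp (by linarith)
    · exact pow_eq_zero_iff two_ne_zero |>.mp (by linarith)

/-- linearised oscillator along the unit circle: the angular component is constant, the radial one decays -/
lemma lin_oscillator {y z : ℝ → ℂ} {p : ℝ}
    (hy : ∀ t ∈ Icc 0 p, HasDerivWithinAt y (-z t - 2 * Real.cos t * (Real.cos t * y t + Real.sin t * z t)) (Icc 0 p) t)
    (hz : ∀ t ∈ Icc 0 p, HasDerivWithinAt z (y t - 2 * Real.sin t * (Real.cos t * y t + Real.sin t * z t)) (Icc 0 p) t)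
    {t : ℝ} (ht : t ∈ Icc 0 p) :
    Real.cos t * y t + Real.sin t * z t = Real.exp (-2 * t) * y 0 ∧
    Real.cos t * z t - Real.sin t * y t = z 0 := by
  have hc : ∀ t, HasDerivWithinAt (fun t : ℝ => ((Real.cos t : ℝ) : ℂ)) ((-Real.sin t : ℝ) : ℂ) (Icc 0 p) t := fun t =>
    (Real.hasDerivAt_cos t).ofReal_comp.hasDerivWithinAt
  have hs : ∀ t, HasDerivWithinAt (fun t : ℝ => ((Real.sin t : ℝ) : ℂ)) ((Real.cos t : ℝ) : ℂ) (Icc 0 p) t := fun t =>
    (Real.hasDerivAt_sin t).ofReal_comp.hasDerivWithinAt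
  have hE : ∀ t, HasDerivWithinAt (fun t : ℝ => ((Real.exp (2 * t) : ℝ) : ℂ)) ((2 * Real.exp (2 * t) : ℝ) : ℂ) (Icc 0 p) t := fun t => by
    have h := ((hasDerivAt_id t).const_mul 2).exp.ofReal_comp.hasDerivWithinAt (s := Icc 0 p)
    refine h.congr_deriv ?_
    simp; ring
  have hcs : ∀ t : ℝ, ((Real.cos t : ℝ) : ℂ) ^ 2 + ((Real.sin t : ℝ) : ℂ) ^ 2 = 1 := fun t => by
    have := Real.cos_sq_add_sin_sq t
    exact_mod_cast this
  -- constancy from zero derivative
  have hconst : ∀ g : ℝ → ℂ, (∀ t ∈ Icc 0 p, HasDerivWithinAt g 0 (Icc 0 p) t) → ∀ t ∈ Icc 0 p, g t = g 0 := by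
    intro g hg t ht
    have := constant_of_has_deriv_right_zero (f := g) (a := 0) (b := p)
      (fun s hs => (hg s hs).continuousWithinAt) (fun s hs => by
        refine (hg s (Ico_subset_Icc_self hs)).mono_of_mem_nhdsWithin ?_
        exact Icc_mem_nhdsGE_of_mem hs)
    exact this t ht
  constructor
  · have h := hconst (fun t => ((Real.exp (2 * t) : ℝ) : ℂ) * (Real.cos t * y t + Real.sin t * z t)) (fun t ht => by
      refine ((hE t).fun_mul (((hc t).fun_mul (hy t ht)).fun_add ((hs t).fun_mul (hz t ht)))).congr_deriv ?_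
      push_cast
      linear_combination (-2 * (Complex.exp (2 * t)) * (Complex.cos t * y t + Complex.sin t * z t)) * (by simp : Complex.cos t ^ 2 + Complex.sin t ^ 2 = 1)) t ht
    simp only [mul_zero, Real.exp_zero, Real.cos_zero, Real.sin_zero, ofReal_one, ofReal_zero, one_mul, zero_mul, add_zero] at h
    rw [← h, ← mul_assoc, ← ofReal_mul, ← Real.exp_add]
    simp
  · have h := hconst (fun t => (Real.cos t * z t - Real.sin t * y t : ℂ)) (fun t ht => by
      refine (((hc t).fun_mul (hz t ht)).fun_sub ((hs t).fun_mul (hy t ht))).congr_deriv ?_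
      push_cast
      ring) t ht
    simpa using h

end Pool.Agent.X98.DDE
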