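import Mathlib

/-!
The series `W(s, α) = ∑ a_n exp (i (n s - 2π α n (n - 1) / 2))`, `a_n = ∏_{j ≤ n} (2 + j²)⁻¹`: it
solves a linear delay equation, and its dependence on `α` is not analytic at `α = 1`.
-/

open Complex

namespace Pool.Agent.X98.DDE

/-- the coefficients -/
noncomputable def a (n : ℕ) : ℝ := (∏ j ∈ Finset.range (n + 1), (2 + (j : ℝ) ^ 2))⁻¹

lemma a_pos (n : ℕ) : 0 < a n := by unfold a; positivity

lemma a_zero : a 0 = 1 / 2 := by unfold a; norm_num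

lemma a_succ (n : ℕ) : (2 + ((n + 1 : ℕ) : ℝ) ^ 2) * a (n + 1) = a n := by
  unfold a
  rw [Finset.prod_range_succ _ (n + 1)]
  have h : (∏ j ∈ Finset.range (n + 1), (2 + (j : ℝ) ^ 2)) ≠ 0 := by positivity
  have h2 : (2 + ((n + 1 : ℕ) : ℝ) ^ 2) ≠ 0 := by positivity
  field_simp

lemma a_le (n : ℕ) : a n ≤ 1 / n.factorial := by
  induction n with
  | zero => rw [a_zero]; norm_num
  | succ n ih =>
    have h := a_succ n
    have h1 : (0 : ℝ) < n.factorial := by positivity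
    have h2 : ((n + 1 : ℕ) : ℝ) ≤ 2 + ((n + 1 : ℕ) : ℝ) ^ 2 := by nlinarith [sq_nonneg (((n + 1 : ℕ) : ℝ) - 1)]
    have h3 : ((n + 1 : ℕ) : ℝ) * a (n + 1) ≤ 1 / n.factorial := by
      refine le_trans ?_ ih
      rw [← h]
      exact mul_le_mul_of_nonneg_right h2 (a_pos _).le
    rw [Nat.factorial_succ]
    push_cast at h3 ⊢
    rw [le_div_iff₀ (by positivity)] at h3 ⊢
    linarith

lemma a_ge (n : ℕ) : 1 / (2 * (3 * (n : ℝ) ^ 2) ^ n) ≤ a n := by
  have key : ∀ m : ℕ, m ≤ n → ∏ j ∈ Finset.range (m + 1), (2 + (j : ℝ) ^ 2) ≤ 2 * (3 * (n : ℝ) ^ 2) ^ m := by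
    intro m
    induction m with
    | zero => intro _; norm_num
    | succ m ih =>
      intro hm
      rw [Finset.prod_range_succ, pow_succ (3 * (n : ℝ) ^ 2) m, ← mul_assoc]
      have h1 : (1 : ℝ) ≤ ((m + 1 : ℕ) : ℝ) := by push_cast; linarith [Nat.cast_nonneg (α := ℝ) m]
      have h2 : ((m + 1 : ℕ) : ℝ) ≤ n := by exact_mod_cast hm
      refine mul_le_mul (ih (by omega)) ?_ (by positivity) (by positivity)
      nlinarith
  unfold a
  rw [one_div]
  exact inv_anti₀ (by positivity) (key n le_rfl)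

/-- `2π n (n - 1) / 2`, the frequencies in `α` -/
noncomputable def lam (n : ℕ) : ℝ := Real.pi * (n * (n - 1))

lemma lam_nonneg (n : ℕ) : 0 ≤ lam n := by
  unfold lam
  rcases Nat.eq_zero_or_pos n with rfl | h
  · simp
  · have : (1 : ℝ) ≤ n := by exact_mod_cast h
    have := Real.pi_pos
    apply mul_nonneg this.le
    apply mul_nonneg <;> linarith

lemma lam_le (n : ℕ) : lam n ≤ 4 * (n : ℝ) ^ 2 := by
  unfold lam
  have h1 := Real.pi_lt_four
  have h2 := Real.pi_pos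
  have h3 : (0 : ℝ) ≤ n := Nat.cast_nonneg n
  have h4 : (n : ℝ) * (n - 1) ≤ (n : ℝ) ^ 2 := by nlinarith
  have h5 : 0 ≤ (n : ℝ) ^ 2 := sq_nonneg _
  calc Real.pi * (n * (n - 1)) ≤ Real.pi * (n : ℝ) ^ 2 := mul_le_mul_of_nonneg_left h4 h2.le
    _ ≤ 4 * (n : ℝ) ^ 2 := mul_le_mul_of_nonneg_right h1.le h5

lemma lam_ge {n : ℕ} (hn : 2 ≤ n) : (n : ℝ) ^ 2 ≤ lam n := by
  unfold lam
  have h1 := Real.pi_gt_three
  have h3 : (2 : ℝ) ≤ n := by exact_mod_cast hn
  have h4 : 0 ≤ (n : ℝ) * (n - 1) := by nlinarith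
  nlinarith [mul_le_mul_of_nonneg_right h1.le h4]

lemma lam_succ (n : ℕ) : lam (n + 1) = lam n + 2 * Real.pi * n := by
  unfold lam; push_cast; ring

lemma summable_pow (k : ℕ) : Summable fun n : ℕ => a n * (n : ℝ) ^ k := by
  have h1 : Summable fun n : ℕ => (k.factorial : ℝ) * (Real.exp 1 ^ n / n.factorial) :=
    (Real.summable_pow_div_factorial _).mul_left _
  refine Summable.of_nonneg_of_le (fun n => mul_nonneg (a_pos n).le (by positivity)) (fun n => ?_) h1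
  have h2 := Real.pow_div_factorial_le_exp (n : ℝ) (Nat.cast_nonneg n) k
  rw [div_le_iff₀ (by positivity)] at h2
  have h3 : Real.exp n = Real.exp 1 ^ n := by rw [← Real.exp_nat_mul]; simp
  rw [h3] at h2
  calc a n * (n : ℝ) ^ k ≤ 1 / n.factorial * (Real.exp 1 ^ n * k.factorial) :=
        mul_le_mul (a_le n) h2 (by positivity) (by positivity)
    _ = (k.factorial : ℝ) * (Real.exp 1 ^ n / n.factorial) := by ring

lemma summable_lam (k m : ℕ) : Summable fun n : ℕ => a n * (n : ℝ) ^ m * lam n ^ k := by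
  have h1 : Summable fun n : ℕ => (4 : ℝ) ^ k * (a n * (n : ℝ) ^ (m + 2 * k)) :=
    (summable_pow (m + 2 * k)).mul_left _
  refine Summable.of_nonneg_of_le
    (fun n => mul_nonneg (mul_nonneg (a_pos n).le (by positivity)) (pow_nonneg (lam_nonneg n) k)) (fun n => ?_) h1
  calc a n * (n : ℝ) ^ m * lam n ^ k ≤ a n * (n : ℝ) ^ m * (4 * (n : ℝ) ^ 2) ^ k :=
        mul_le_mul_of_nonneg_left (pow_le_pow_left₀ (lam_nonneg n) (lam_le n) k)
          (mul_nonneg (a_pos n).le (by positivity))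
    _ = (4 : ℝ) ^ k * (a n * (n : ℝ) ^ (m + 2 * k)) := by rw [mul_pow, pow_add, ← pow_mul]; ring

/-- term-by-term differentiation of trigonometric series -/
lemma hasDerivAt_trig {b : ℕ → ℂ} {ω θ : ℕ → ℝ} (h0 : Summable fun n => ‖b n‖)
    (h1 : Summable fun n => ‖b n‖ * |ω n|) (s : ℝ) :
    HasDerivAt (fun s : ℝ => ∑' n, b n * exp (I * (ω n * s + θ n : ℝ)))
      (∑' n, (I * ω n * b n) * exp (I * (ω n * s + θ n : ℝ))) s := by
  have hn : ∀ x : ℝ, ‖exp (I * (x : ℂ))‖ = 1 := fun x => by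
    rw [mul_comm]; exact norm_exp_ofReal_mul_I x
  refine hasDerivAt_tsum (𝕜 := ℝ) (g := fun n (s : ℝ) => b n * exp (I * (ω n * s + θ n : ℝ)))
    (g' := fun n (s : ℝ) => (I * ω n * b n) * exp (I * (ω n * s + θ n : ℝ)))
    (u := fun n => ‖b n‖ * |ω n|) (y₀ := 0) h1 ?_ ?_ ?_ s
  · intro n y
    have h : HasDerivAt (fun s : ℝ => (I * ((ω n * s + θ n : ℝ) : ℂ))) (I * (ω n : ℂ)) y := by
      have h2 : HasDerivAt (fun s : ℝ => ω n * s + θ n) (ω n) y := by
        simpa using ((hasDerivAt_id y).const_mul (ω n)).add_const (θ n)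
      exact h2.ofReal_comp.const_mul I
    have h3 := (h.cexp).const_mul (b n)
    refine h3.congr_deriv ?_
    ring
  · intro n y
    rw [norm_mul, hn, mul_one, norm_mul, norm_mul, norm_I, one_mul, norm_real, Real.norm_eq_abs, mul_comm]
  · refine Summable.of_norm ?_
    refine h0.congr fun n => ?_
    rw [norm_mul, hn, mul_one]

/-- the solution and its derivatives: `∑ (i n)^k a_n exp (i (n s - α λ_n))` -/
noncomputable def W (k : ℕ) (s α : ℝ) : ℂ :=
  ∑' n : ℕ, ((I * n) ^ k * a n) * exp (I * ((n * s + (-(α * lam n)) : ℝ) : ℂ))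

lemma norm_coef (k n : ℕ) : ‖((I * n) ^ k * a n : ℂ)‖ = a n * (n : ℝ) ^ k := by
  rw [norm_mul, norm_pow, norm_mul, norm_I, one_mul, norm_natCast, norm_real, Real.norm_eq_abs,
    abs_of_pos (a_pos n), mul_comm]

lemma W_deriv (k : ℕ) (s α : ℝ) : HasDerivAt (fun s => W k s α) (W (k + 1) s α) s := by
  have h := hasDerivAt_trig (b := fun n : ℕ => ((I * n) ^ k * a n : ℂ)) (ω := fun n : ℕ => (n : ℝ))
    (θ := fun n => -(α * lam n)) ((summable_pow k).congr fun n => (norm_coef k n).symm)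
    ((summable_pow (k + 1)).congr fun n => by rw [norm_coef, Nat.abs_cast, pow_succ]; ring) s
  refine h.congr_deriv ?_
  unfold W
  refine tsum_congr fun n => ?_
  push_cast
  ring

lemma W_periodic (k : ℕ) (s α : ℝ) {q : ℝ} (hq : exp (I * q) = 1) : W k (s + q) α = W k s α := by
  unfold W
  refine tsum_congr fun n => ?_
  congr 1
  have h : (I * ((n * (s + q) + (-(α * lam n)) : ℝ) : ℂ)) =
      I * ((n * s + (-(α * lam n)) : ℝ) : ℂ) + n * (I * q) := by push_cast; ring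
  rw [h, exp_add, exp_nat_mul, hq, one_pow, mul_one]

lemma summable_W (k : ℕ) (s α : ℝ) :
    Summable fun n : ℕ => ((I * n) ^ k * a n) * exp (I * ((n * s + (-(α * lam n)) : ℝ) : ℂ)) := by
  refine Summable.of_norm ?_
  refine (summable_pow k).congr fun n => ?_
  rw [norm_mul, norm_coef]
  have : ‖exp (I * ((n * s + (-(α * lam n)) : ℝ) : ℂ))‖ = 1 := by
    rw [mul_comm]; exact norm_exp_ofReal_mul_I _
  rw [this, mul_one]

/-- the delay equation -/
lemma W_eq (s α : ℝ) : W 2 s α = 2 * W 0 s α - exp (I * s) * W 0 (s - 2 * Real.pi * α) α - 1 := by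
  have h0 := summable_W 0 s α
  have h2 := summable_W 2 s α
  have h3 := summable_W 0 (s - 2 * Real.pi * α) α
  -- the shifted series
  have e1 : exp (I * s) * W 0 (s - 2 * Real.pi * α) α =
      ∑' n : ℕ, (a n : ℂ) * exp (I * (((n + 1 : ℕ) * s + (-(α * lam (n + 1))) : ℝ) : ℂ)) := by
    unfold W
    rw [← tsum_mul_left]
    refine tsum_congr fun n => ?_
    rw [pow_zero, one_mul, mul_left_comm, ← exp_add]
    congr 2
    rw [lam_succ]; push_cast; ring
  have e2 : 2 * W 0 s α - W 2 s α =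
      ∑' n : ℕ, ((2 + (n : ℝ) ^ 2 : ℝ) * a n : ℂ) * exp (I * ((n * s + (-(α * lam n)) : ℝ) : ℂ)) := by
    unfold W
    rw [← tsum_mul_left, ← (h0.mul_left 2).tsum_sub h2]
    refine tsum_congr fun n => ?_
    have : (I * (n : ℂ)) ^ 2 = -(n : ℂ) ^ 2 := by rw [mul_pow, I_sq]; ring
    rw [this]; push_cast; ring
  have hs : Summable fun n : ℕ => ((2 + (n : ℝ) ^ 2 : ℝ) * a n : ℂ) * exp (I * ((n * s + (-(α * lam n)) : ℝ) : ℂ)) := by
    refine ((h0.mul_left 2).sub h2).congr fun n => ?_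
    have : (I * (n : ℂ)) ^ 2 = -(n : ℂ) ^ 2 := by rw [mul_pow, I_sq]; ring
    rw [this]; push_cast; ring
  rw [hs.tsum_eq_zero_add] at e2
  have e3 : (∑' n : ℕ, ((2 + ((n + 1 : ℕ) : ℝ) ^ 2 : ℝ) * a (n + 1) : ℂ) *
      exp (I * (((n + 1 : ℕ) * s + (-(α * lam (n + 1))) : ℝ) : ℂ))) =
      exp (I * s) * W 0 (s - 2 * Real.pi * α) α := by
    rw [e1]
    refine tsum_congr fun n => ?_
    congr 1
    exact_mod_cast congrArg (fun x : ℝ => (x : ℂ)) (a_succ n)
  rw [e3] at e2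
  have e4 : ((2 + ((0 : ℕ) : ℝ) ^ 2 : ℝ) * a 0 : ℂ) * exp (I * (((0 : ℕ) * s + (-(α * lam 0)) : ℝ) : ℂ)) = 1 := by
    rw [a_zero]; unfold lam; simp
  rw [e4] at e2
  linear_combination -e2

/-! ### Dependence on `α` -/

/-- the derivatives of `W 0 0 α` in `α` -/
noncomputable def F (k : ℕ) (α : ℝ) : ℂ :=
  ∑' n : ℕ, ((-(I * lam n)) ^ k * a n) * exp (I * (((-lam n) * α + 0 : ℝ) : ℂ))

lemma F_zero (α : ℝ) : F 0 α = W 0 0 α := by
  unfold F W
  refine tsum_congr fun n => ?_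
  rw [pow_zero, pow_zero]
  congr 2
  push_cast; ring

lemma norm_coefF (k n : ℕ) : ‖((-(I * lam n)) ^ k * a n : ℂ)‖ = a n * (n : ℝ) ^ 0 * lam n ^ k := by
  rw [norm_mul, norm_pow, norm_neg, norm_mul, norm_I, one_mul, norm_real, norm_real, Real.norm_eq_abs,
    Real.norm_eq_abs, abs_of_pos (a_pos n), abs_of_nonneg (lam_nonneg n)]
  ring

lemma F_deriv (k : ℕ) (α : ℝ) : HasDerivAt (F k) (F (k + 1) α) α := by
  have h := hasDerivAt_trig (b := fun n : ℕ => ((-(I * lam n)) ^ k * a n : ℂ)) (ω := fun n : ℕ => -lam n)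
    (θ := fun _ => 0) ((summable_lam k 0).congr fun n => (norm_coefF k n).symm)
    ((summable_lam (k + 1) 0).congr fun n => by
      rw [norm_coefF, abs_neg, abs_of_nonneg (lam_nonneg n), pow_succ]; ring) α
  refine h.congr_deriv ?_
  unfold F
  refine tsum_congr fun n => ?_
  push_cast
  ring

lemma iteratedDeriv_F (k : ℕ) : iteratedDeriv k (F 0) = F k := by
  induction k with
  | zero => exact iteratedDeriv_zero
  | succ k ih =>
    rw [iteratedDeriv_succ, ih]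
    funext α
    exact (F_deriv k α).deriv

lemma exp_lam (n : ℕ) : exp (I * (((-lam n) * 1 + 0 : ℝ) : ℂ)) = 1 := by
  -- `λ_n = 2π · n (n-1)/2`
  have h : ∃ m : ℕ, n * (n - 1) = 2 * m := (even_iff_two_dvd.mp (Nat.even_mul_pred_self n))
  obtain ⟨m, hm⟩ := h
  have h1 : (n : ℝ) * (n - 1) = 2 * m := by
    rcases Nat.eq_zero_or_pos n with rfl | hn
    · simp at hm; subst hm; simp
    · have : ((n - 1 : ℕ) : ℝ) = n - 1 := by rw [Nat.cast_sub hn]; simp
      rw [← this]; exact_mod_cast hm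
  have h2 : (I * (((-lam n) * 1 + 0 : ℝ) : ℂ)) = ((-m : ℤ) : ℂ) * (2 * Real.pi * I) := by
    unfold lam; rw [h1]; push_cast; ring
  rw [h2]
  exact exp_int_mul_two_pi_mul_I _

lemma norm_F_ge (m n : ℕ) : a n * lam n ^ m ≤ ‖F m 1‖ := by
  have h1 : F m 1 = (-I) ^ m * ((∑' n : ℕ, a n * lam n ^ m : ℝ) : ℂ) := by
    unfold F
    rw [ofReal_tsum, ← tsum_mul_left]
    refine tsum_congr fun n => ?_
    rw [exp_lam, mul_one]
    push_cast
    have : (-(I * (lam n : ℂ))) = -I * lam n := by ring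
    rw [this, mul_pow]; ring
  have hs : Summable fun n : ℕ => a n * lam n ^ m := by simpa using summable_lam m 0
  have h0 : 0 ≤ ∑' n : ℕ, a n * lam n ^ m :=
    tsum_nonneg fun n => mul_nonneg (a_pos n).le (pow_nonneg (lam_nonneg n) m)
  rw [h1, norm_mul, norm_pow, norm_neg, norm_I, one_pow, one_mul, norm_real, Real.norm_of_nonneg h0]
  exact hs.le_tsum n fun j _ => mul_nonneg (a_pos j).le (pow_nonneg (lam_nonneg j) m)

theorem not_analytic : ¬ AnalyticAt ℝ (fun α : ℝ => W 0 0 α) 1 := by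
  intro h
  have h' : AnalyticAt ℝ (F 0) 1 := by
    have : F 0 = fun α : ℝ => W 0 0 α := funext F_zero
    rw [this]; exact h
  obtain ⟨P, ρ, hρ⟩ := h'
  obtain ⟨r, hr0, hr1⟩ := ENNReal.lt_iff_exists_nnreal_btwn.mp hρ.r_pos
  have hr0' : 0 < r := by exact_mod_cast hr0
  have hrad := lt_of_lt_of_le hr1 hρ.r_le
  obtain ⟨C, hC0, hC⟩ := FormalMultilinearSeries.norm_mul_pow_le_of_lt_radius _ hrad
  have hbound : ∀ m : ℕ, ‖F m 1‖ * (r : ℝ) ^ m ≤ C * m.factorial := by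
    intro m
    have h1 := hC m
    have h2 := hρ.factorial_smul 1 m
    rw [← iteratedDeriv_eq_iteratedFDeriv, iteratedDeriv_F] at h2
    have h3 : ‖P m (fun _ => (1 : ℝ))‖ ≤ ‖P m‖ := by
      have := (P m).le_opNorm (fun _ => (1 : ℝ))
      simpa using this
    rw [← h2, nsmul_eq_mul, norm_mul, norm_natCast]
    calc (m.factorial : ℝ) * ‖P m (fun _ => (1 : ℝ))‖ * (r : ℝ) ^ m
        ≤ (m.factorial : ℝ) * (‖P m‖ * (r : ℝ) ^ m) := by
          rw [mul_assoc]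
          exact mul_le_mul_of_nonneg_left (mul_le_mul_of_nonneg_right h3 (by positivity)) (by positivity)
      _ ≤ m.factorial * C := mul_le_mul_of_nonneg_left h1 (by positivity)
      _ = C * m.factorial := mul_comm _ _
  have hr : (0 : ℝ) < r := hr0'
  -- compare with `n ^ (2 n)`
  have key : ∀ n : ℕ, 2 ≤ n → ((n : ℝ) ^ 2) ^ n ≤ 2 * C * (768 / (r : ℝ) ^ 4) ^ n := by
    intro n hn
    have h1 := hbound (4 * n)
    have h2 := norm_F_ge (4 * n) n
    have h3 : 1 / (2 * (3 * (n : ℝ) ^ 2) ^ n) * ((n : ℝ) ^ 2) ^ (4 * n) ≤ a n * lam n ^ (4 * n) :=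
      mul_le_mul (a_ge n) (pow_le_pow_left₀ (by positivity) (lam_ge hn) _) (by positivity) (a_pos n).le
    have h4 : ((4 * n).factorial : ℝ) ≤ (4 * n : ℝ) ^ (4 * n) := by
      exact_mod_cast Nat.factorial_le_pow (4 * n)
    have h5 : 1 / (2 * (3 * (n : ℝ) ^ 2) ^ n) * ((n : ℝ) ^ 2) ^ (4 * n) * (r : ℝ) ^ (4 * n) ≤
        C * (4 * n : ℝ) ^ (4 * n) := by
      calc _ ≤ ‖F (4 * n) 1‖ * (r : ℝ) ^ (4 * n) :=
            mul_le_mul_of_nonneg_right (h3.trans h2) (by positivity)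
        _ ≤ C * (4 * n).factorial := h1
        _ ≤ _ := mul_le_mul_of_nonneg_left h4 hC0.le
    have hn0 : (0 : ℝ) < n := by
      have : 0 < n := by omega
      exact_mod_cast this
    set x : ℝ := (n : ℝ) ^ n with hx
    have hx0 : 0 < x := by positivity
    have e1 : ((n : ℝ) ^ 2) ^ (4 * n) = x ^ 8 := by rw [hx]; ring
    have e2 : (3 * (n : ℝ) ^ 2) ^ n = 3 ^ n * x ^ 2 := by rw [hx, mul_pow]; ring
    have e3 : (4 * n : ℝ) ^ (4 * n) = 256 ^ n * x ^ 4 := by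
      rw [hx, mul_pow, pow_mul (4 : ℝ) 4 n]; norm_num; ring
    have e4 : (r : ℝ) ^ (4 * n) = ((r : ℝ) ^ 4) ^ n := by rw [pow_mul]
    have e5 : ((n : ℝ) ^ 2) ^ n = x ^ 2 := by rw [hx]; ring
    rw [e1, e2, e3, e4] at h5
    rw [e5, div_pow]
    set ρ' : ℝ := ((r : ℝ) ^ 4) ^ n with hρ'
    have hρ0 : 0 < ρ' := by positivity
    have h6 : x ^ 8 * ρ' ≤ C * (256 ^ n * x ^ 4) * (2 * (3 ^ n * x ^ 2)) := by
      have : 1 / (2 * (3 ^ n * x ^ 2)) * x ^ 8 * ρ' = x ^ 8 * ρ' / (2 * (3 ^ n * x ^ 2)) := by ring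
      rw [this, div_le_iff₀ (by positivity)] at h5
      exact h5
    have h7 : x ^ 2 * ρ' ≤ 2 * C * 768 ^ n := by
      have e6 : (768 : ℝ) ^ n = 256 ^ n * 3 ^ n := by rw [← mul_pow]; norm_num
      rw [e6]
      have h8 : x ^ 6 * (x ^ 2 * ρ') ≤ x ^ 6 * (2 * C * (256 ^ n * 3 ^ n)) := by
        calc x ^ 6 * (x ^ 2 * ρ') = x ^ 8 * ρ' := by ring
          _ ≤ _ := h6
          _ = x ^ 6 * (2 * C * (256 ^ n * 3 ^ n)) := by ring
      exact le_of_mul_le_mul_left h8 (by positivity)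
    rw [← mul_div_assoc, le_div_iff₀ hρ0]
    exact h7
  set K : ℝ := 768 / (r : ℝ) ^ 4 with hK
  have hK0 : 0 < K := by positivity
  obtain ⟨n1, hn1⟩ := exists_nat_gt (2 * K)
  obtain ⟨n2, hn2⟩ := exists_nat_gt (2 * C)
  set n := n1 + n2 + 2 with hn
  have h1 := key n (by omega)
  have h2 : 2 * K ≤ (n : ℝ) ^ 2 := by
    have a1 : (n1 : ℝ) ≤ n := by rw [hn]; push_cast; linarith [Nat.cast_nonneg (α := ℝ) n2]
    have a2 : (1 : ℝ) ≤ n := by rw [hn]; push_cast; linarith [Nat.cast_nonneg (α := ℝ) n2, Nat.cast_nonneg (α := ℝ) n1]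
    nlinarith
  have h3 : (2 * K) ^ n ≤ ((n : ℝ) ^ 2) ^ n := pow_le_pow_left₀ (by positivity) h2 n
  have h4 : (2 : ℝ) ^ n * K ^ n ≤ 2 * C * K ^ n := by
    rw [← mul_pow]; exact h3.trans h1
  have h5 : (2 : ℝ) ^ n ≤ 2 * C := le_of_mul_le_mul_right h4 (by positivity)
  have h6 : (n : ℝ) < 2 ^ n := by exact_mod_cast Nat.lt_two_pow_self
  have h7 : (n2 : ℝ) ≤ n := by rw [hn]; push_cast; linarith [Nat.cast_nonneg (α := ℝ) n1]
  linarith

end Pool.Agent.X98.DDE
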