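import Mathlib
import Pool.Agent.X98.DDE.Series
import Pool.Agent.X98.DDE.Ode

/-!
The delay system (`N = 6`, `M = 1`) and its explicit family of periodic solutions.
-/

open Set Filter Topology

namespace Pool.Agent.X98.DDE

/-! ## The system -/


noncomputable def c1 : ℝ := (W 1 0 1).im
noncomputable def c2 : ℝ := -(W 1 0 1).re
noncomputable def d1 : ℝ := (W 2 0 1).im
noncomputable def d2 : ℝ := -(W 2 0 1).re

noncomputable def g1 (a b : ℝ) : ℝ := -b + a * (1 - a ^ 2 - b ^ 2)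
noncomputable def g2 (a b : ℝ) : ℝ := a + b * (1 - a ^ 2 - b ^ 2)

/-- the right-hand side, in terms of the coordinates `z = (a, b)` and of
`w = (w1, w2)`, `v = (v1, v2)`, `w = U + c z`, `v = V + d z` -/
noncomputable def rhs (a b v1 v2 w1 w2 wr1 wr2 α : ℝ) : Fin 6 → ℝ :=
  ![α * g1 a b, α * g2 a b,
    α * v1 - (c1 * (α * g1 a b) - c2 * (α * g2 a b)),
    α * v2 - (c1 * (α * g2 a b) + c2 * (α * g1 a b)),
    α * (2 * w1 - (a * wr1 - b * wr2) - 1) - (d1 * (α * g1 a b) - d2 * (α * g2 a b)),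
    α * (2 * w2 - (a * wr2 + b * wr1)) - (d1 * (α * g2 a b) + d2 * (α * g1 a b))]

/-- the right-hand side of the system: `N = 6`, `M = 1` -/
noncomputable def f : (Fin 2 → Fin 6 → ℝ) → ℝ → Fin 6 → ℝ := fun X α =>
  rhs (X 0 0) (X 0 1)
    (X 0 4 + (d1 * X 0 0 - d2 * X 0 1)) (X 0 5 + (d1 * X 0 1 + d2 * X 0 0))
    (X 0 2 + (c1 * X 0 0 - c2 * X 0 1)) (X 0 3 + (c1 * X 0 1 + c2 * X 0 0))
    (X 1 2 + (c1 * X 1 0 - c2 * X 1 1)) (X 1 3 + (c1 * X 1 1 + c2 * X 1 0)) α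

noncomputable def r : Fin 2 → ℝ := ![0, 2 * Real.pi]

lemma f_analytic : AnalyticOnNhd ℝ (fun q : (Fin 2 → Fin 6 → ℝ) × ℝ => f q.1 q.2) univ := by
  rw [← contDiff_omega_iff_analyticOnNhd]
  rw [contDiff_pi]
  intro i
  have h0 : ∀ (k : Fin 2) (j : Fin 6), ContDiff ℝ ⊤ fun q : (Fin 2 → Fin 6 → ℝ) × ℝ => q.1 k j := by
    intro k j
    fun_prop
  have h1 : ContDiff ℝ ⊤ fun q : (Fin 2 → Fin 6 → ℝ) × ℝ => q.2 := contDiff_snd
  fin_cases i <;> simp [f, rhs, g1, g2] <;> fun_prop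

/-- the family of periodic solutions -/
noncomputable def Xs (α t : ℝ) : Fin 6 → ℝ :=
  ![Real.cos (α * t), Real.sin (α * t),
    (W 0 (α * t) α).re - (c1 * Real.cos (α * t) - c2 * Real.sin (α * t)),
    (W 0 (α * t) α).im - (c1 * Real.sin (α * t) + c2 * Real.cos (α * t)),
    (W 1 (α * t) α).re - (d1 * Real.cos (α * t) - d2 * Real.sin (α * t)),
    (W 1 (α * t) α).im - (d1 * Real.sin (α * t) + d2 * Real.cos (α * t))]

lemma W_comp_deriv (k : ℕ) (α t : ℝ) :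
    HasDerivAt (fun t => W k (α * t) α) (α * W (k + 1) (α * t) α) t := by
  have h1 : HasDerivAt (fun t => α * t) α t := by simpa using (hasDerivAt_id t).const_mul α
  have h2 := (W_deriv k (α * t) α).scomp t h1
  refine h2.congr_deriv ?_
  simp

lemma W_re_deriv (k : ℕ) (α t : ℝ) :
    HasDerivAt (fun t => (W k (α * t) α).re) (α * (W (k + 1) (α * t) α).re) t :=
  ((Complex.reCLM.hasFDerivAt (x := W k (α * t) α)).comp_hasDerivAt t (W_comp_deriv k α t)).congr_deriv (by simp)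

lemma W_im_deriv (k : ℕ) (α t : ℝ) :
    HasDerivAt (fun t => (W k (α * t) α).im) (α * (W (k + 1) (α * t) α).im) t :=
  ((Complex.imCLM.hasFDerivAt (x := W k (α * t) α)).comp_hasDerivAt t (W_comp_deriv k α t)).congr_deriv (by simp)

lemma cos_deriv (α t : ℝ) : HasDerivAt (fun t => Real.cos (α * t)) (-(α * Real.sin (α * t))) t := by
  have := ((hasDerivAt_id t).const_mul α).cos
  refine this.congr_deriv ?_
  simp; ring

lemma sin_deriv (α t : ℝ) : HasDerivAt (fun t => Real.sin (α * t)) (α * Real.cos (α * t)) t := by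
  have := ((hasDerivAt_id t).const_mul α).sin
  refine this.congr_deriv ?_
  simp; ring

lemma W_eq_re (α t : ℝ) : (W 2 (α * t) α).re = 2 * (W 0 (α * t) α).re -
    (Real.cos (α * t) * (W 0 (α * (t - 2 * Real.pi)) α).re -
      Real.sin (α * t) * (W 0 (α * (t - 2 * Real.pi)) α).im) - 1 := by
  have h := congrArg Complex.re (W_eq (α * t) α)
  rw [show α * t - 2 * Real.pi * α = α * (t - 2 * Real.pi) by ring, mul_comm Complex.I] at h
  rw [Complex.sub_re, Complex.sub_re, Complex.mul_re, Complex.mul_re, Complex.exp_ofReal_mul_I_re,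
    Complex.exp_ofReal_mul_I_im] at h
  simpa using h

lemma W_eq_im (α t : ℝ) : (W 2 (α * t) α).im = 2 * (W 0 (α * t) α).im -
    (Real.cos (α * t) * (W 0 (α * (t - 2 * Real.pi)) α).im +
      Real.sin (α * t) * (W 0 (α * (t - 2 * Real.pi)) α).re) := by
  have h := congrArg Complex.im (W_eq (α * t) α)
  rw [show α * t - 2 * Real.pi * α = α * (t - 2 * Real.pi) by ring, mul_comm Complex.I] at h
  rw [Complex.sub_im, Complex.sub_im, Complex.mul_im, Complex.mul_im, Complex.exp_ofReal_mul_I_re,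
    Complex.exp_ofReal_mul_I_im] at h
  simpa using h

lemma Xs_sol (α t : ℝ) : HasDerivAt (Xs α) (f (fun k => Xs α (t - r k)) α) t := by
  rw [hasDerivAt_pi]
  have hcs := Real.cos_sq_add_sin_sq (α * t)
  have hg1 : g1 (Real.cos (α * t)) (Real.sin (α * t)) = -Real.sin (α * t) := by
    unfold g1; linear_combination -Real.cos (α * t) * hcs
  have hg2 : g2 (Real.cos (α * t)) (Real.sin (α * t)) = Real.cos (α * t) := by
    unfold g2; linear_combination -Real.sin (α * t) * hcs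
  intro i
  have hc := cos_deriv α t
  have hs := sin_deriv α t
  fin_cases i
  · refine hc.congr_deriv ?_
    simp [f, rhs, r, Xs, hg1]
  · refine hs.congr_deriv ?_
    simp [f, rhs, r, Xs, hg2]
  · refine ((W_re_deriv 0 α t).fun_sub ((hc.const_mul c1).fun_sub (hs.const_mul c2))).congr_deriv ?_
    simp [f, rhs, r, Xs, hg1, hg2]
  · refine ((W_im_deriv 0 α t).fun_sub ((hs.const_mul c1).fun_add (hc.const_mul c2))).congr_deriv ?_
    simp [f, rhs, r, Xs, hg1, hg2]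
  · refine ((W_re_deriv 1 α t).fun_sub ((hc.const_mul d1).fun_sub (hs.const_mul d2))).congr_deriv ?_
    simp [f, rhs, r, Xs, hg1, hg2]
    exact Or.inl (W_eq_re α t)
  · refine ((W_im_deriv 1 α t).fun_sub ((hs.const_mul d1).fun_add (hc.const_mul d2))).congr_deriv ?_
    simp [f, rhs, r, Xs, hg1, hg2]
    exact Or.inl (W_eq_im α t)

/-! ### The linearisation -/

/-- the derivative of `rhs`, for real or complex directions -/
noncomputable def drhs {K : Type} [RCLike K] (a b wr1 wr2 α : ℝ) (a' b' v1' v2' w1' w2' wr1' wr2' : K) :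
    Fin 6 → K :=
  let q1 : K := α * (-b' + a' * (1 - a ^ 2 - b ^ 2) - a * (2 * a * a' + 2 * b * b'))
  let q2 : K := α * (a' + b' * (1 - a ^ 2 - b ^ 2) - b * (2 * a * a' + 2 * b * b'))
  ![q1, q2,
    α * v1' - (c1 * q1 - c2 * q2),
    α * v2' - (c1 * q2 + c2 * q1),
    α * (2 * w1' - (a' * wr1 + a * wr1' - (b' * wr2 + b * wr2'))) - (d1 * q1 - d2 * q2),
    α * (2 * w2' - (a' * wr2 + a * wr2' + (b' * wr1 + b * wr1'))) - (d1 * q2 + d2 * q1)]

/-- the derivative of `f` at `X` in the direction `Y` -/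
noncomputable def df {K : Type} [RCLike K] (X : Fin 2 → Fin 6 → ℝ) (α : ℝ) (Y : Fin 2 → Fin 6 → K) :
    Fin 6 → K :=
  drhs (X 0 0) (X 0 1) (X 1 2 + (c1 * X 1 0 - c2 * X 1 1)) (X 1 3 + (c1 * X 1 1 + c2 * X 1 0)) α
    (Y 0 0) (Y 0 1)
    (Y 0 4 + (d1 * Y 0 0 - d2 * Y 0 1)) (Y 0 5 + (d1 * Y 0 1 + d2 * Y 0 0))
    (Y 0 2 + (c1 * Y 0 0 - c2 * Y 0 1)) (Y 0 3 + (c1 * Y 0 1 + c2 * Y 0 0))
    (Y 1 2 + (c1 * Y 1 0 - c2 * Y 1 1)) (Y 1 3 + (c1 * Y 1 1 + c2 * Y 1 0))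

lemma f_diff (α : ℝ) (X : Fin 2 → Fin 6 → ℝ) : DifferentiableAt ℝ (fun X => f X α) X := by
  have h1 : DifferentiableAt ℝ (fun q : (Fin 2 → Fin 6 → ℝ) × ℝ => f q.1 q.2) (X, α) :=
    (f_analytic (X, α) trivial).differentiableAt
  have h2 : DifferentiableAt ℝ (fun X : Fin 2 → Fin 6 → ℝ => (X, α)) X := by fun_prop
  exact DifferentiableAt.comp (f := fun X : Fin 2 → Fin 6 → ℝ => (X, α)) (g := fun q : (Fin 2 → Fin 6 → ℝ) × ℝ => f q.1 q.2) X h1 h2

lemma fderiv_f (α : ℝ) (X Y : Fin 2 → Fin 6 → ℝ) : fderiv ℝ (fun X => f X α) X Y = df X α Y := by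
  have h1 : HasDerivAt (fun s : ℝ => X + s • Y) Y 0 := by
    have := ((hasDerivAt_id (0 : ℝ)).smul_const Y).const_add X
    simpa using this
  have h2 : HasDerivAt (fun s : ℝ => f (X + s • Y) α) (fderiv ℝ (fun X => f X α) X Y) 0 := by
    have h3 : HasFDerivAt (fun X => f X α) (fderiv ℝ (fun X => f X α) X) (X + (0 : ℝ) • Y) := by
      simpa using (f_diff α X).hasFDerivAt
    exact h3.comp_hasDerivAt 0 h1
  refine h2.unique ?_
  have hj : ∀ (k : Fin 2) (j : Fin 6), HasDerivAt (fun s : ℝ => X k j + s * Y k j) (Y k j) 0 := fun k j => by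
    have := ((hasDerivAt_id (0 : ℝ)).mul_const (Y k j)).const_add (X k j)
    simpa using this
  have hL : ∀ (k : Fin 2) (i1 i2 i3 : Fin 6) (p q : ℝ),
      HasDerivAt (fun s : ℝ => (X k i1 + s * Y k i1) + (p * (X k i2 + s * Y k i2) - q * (X k i3 + s * Y k i3)))
        (Y k i1 + (p * Y k i2 - q * Y k i3)) 0 := fun k i1 i2 i3 p q =>
    (hj k i1).fun_add (((hj k i2).const_mul p).fun_sub ((hj k i3).const_mul q))
  have hL' : ∀ (k : Fin 2) (i1 i2 i3 : Fin 6) (p q : ℝ),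
      HasDerivAt (fun s : ℝ => (X k i1 + s * Y k i1) + (p * (X k i2 + s * Y k i2) + q * (X k i3 + s * Y k i3)))
        (Y k i1 + (p * Y k i2 + q * Y k i3)) 0 := fun k i1 i2 i3 p q =>
    (hj k i1).fun_add (((hj k i2).const_mul p).fun_add ((hj k i3).const_mul q))
  have hg1 : HasDerivAt (fun s : ℝ => g1 (X 0 0 + s * Y 0 0) (X 0 1 + s * Y 0 1))
      (-Y 0 1 + Y 0 0 * (1 - X 0 0 ^ 2 - X 0 1 ^ 2) - X 0 0 * (2 * X 0 0 * Y 0 0 + 2 * X 0 1 * Y 0 1)) 0 := by
    refine ((hj 0 1).fun_neg.fun_add ((hj 0 0).fun_mul ((((hj 0 0).fun_pow 2).const_sub 1).fun_sub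
      ((hj 0 1).fun_pow 2)))).congr_deriv ?_
    simp; ring
  have hg2 : HasDerivAt (fun s : ℝ => g2 (X 0 0 + s * Y 0 0) (X 0 1 + s * Y 0 1))
      (Y 0 0 + Y 0 1 * (1 - X 0 0 ^ 2 - X 0 1 ^ 2) - X 0 1 * (2 * X 0 0 * Y 0 0 + 2 * X 0 1 * Y 0 1)) 0 := by
    refine ((hj 0 0).fun_add ((hj 0 1).fun_mul ((((hj 0 0).fun_pow 2).const_sub 1).fun_sub
      ((hj 0 1).fun_pow 2)))).congr_deriv ?_
    simp; ring
  have ha1 := hg1.const_mul α
  have ha2 := hg2.const_mul α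
  rw [hasDerivAt_pi]
  intro i
  fin_cases i
  · refine ha1.congr_deriv ?_
    simp [df, drhs]
  · refine ha2.congr_deriv ?_
    simp [df, drhs]
  · refine (((hL 0 4 0 1 d1 d2).const_mul α).fun_sub ((ha1.const_mul c1).fun_sub (ha2.const_mul c2))).congr_deriv ?_
    simp [df, drhs]
  · refine (((hL' 0 5 1 0 d1 d2).const_mul α).fun_sub ((ha2.const_mul c1).fun_add (ha1.const_mul c2))).congr_deriv ?_
    simp [df, drhs]
  · refine ((((((hL 0 2 0 1 c1 c2).const_mul 2).fun_sub (((hj 0 0).fun_mul (hL 1 2 0 1 c1 c2)).fun_sub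
      ((hj 0 1).fun_mul (hL' 1 3 1 0 c1 c2)))).sub_const 1).const_mul α).fun_sub
        ((ha1.const_mul d1).fun_sub (ha2.const_mul d2))).congr_deriv ?_
    simp [df, drhs]
  · refine ((((((hL' 0 3 1 0 c1 c2).const_mul 2).fun_sub (((hj 0 0).fun_mul (hL' 1 3 1 0 c1 c2)).fun_add
      ((hj 0 1).fun_mul (hL 1 2 0 1 c1 c2))))).const_mul α).fun_sub
        ((ha2.const_mul d1).fun_add (ha1.const_mul d2))).congr_deriv ?_
    simp [df, drhs]

lemma sum_Dmat_real (α : ℝ) (X Y : Fin 2 → Fin 6 → ℝ) (i : Fin 6) :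
    ∑ k : Fin 2, ∑ j : Fin 6, fderiv ℝ (fun X => f X α) X (Pi.single k (Pi.single j 1)) i * Y k j = df X α Y i := by
  rw [← fderiv_f]
  have hY : Y = ∑ k, ∑ j, Y k j • (Pi.single k (Pi.single j 1) : Fin 2 → Fin 6 → ℝ) := by
    funext k j
    simp only [Finset.sum_apply, Pi.smul_apply, smul_eq_mul]
    rw [Finset.sum_eq_single k, Finset.sum_eq_single j]
    · simp
    · intro b _ hb; simp [hb.symm]
    · simp
    · intro b _ hb; simp [hb.symm]
    · simp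
  conv_rhs => rw [hY]
  rw [map_sum, Finset.sum_apply]
  refine Finset.sum_congr rfl fun k _ => ?_
  rw [map_sum, Finset.sum_apply]
  refine Finset.sum_congr rfl fun j _ => ?_
  rw [map_smul, Pi.smul_apply, smul_eq_mul, mul_comm]

set_option maxHeartbeats 2000000 in
lemma sum_Dmat (α : ℝ) (X : Fin 2 → Fin 6 → ℝ) (Y : Fin 2 → Fin 6 → ℂ) (i : Fin 6) :
    ∑ k : Fin 2, ∑ j : Fin 6, ((fderiv ℝ (fun X => f X α) X (Pi.single k (Pi.single j 1)) i : ℝ) : ℂ) * Y k j = df X α Y i := by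
  have h1 := sum_Dmat_real α X (fun k j => (Y k j).re) i
  have h2 := sum_Dmat_real α X (fun k j => (Y k j).im) i
  apply Complex.ext
  · have : (∑ k : Fin 2, ∑ j : Fin 6, ((fderiv ℝ (fun X => f X α) X (Pi.single k (Pi.single j 1)) i : ℝ) : ℂ) * Y k j).re =
        ∑ k : Fin 2, ∑ j : Fin 6, fderiv ℝ (fun X => f X α) X (Pi.single k (Pi.single j 1)) i * (Y k j).re := by
      simp
    rw [this, h1]
    fin_cases i <;> simp [df, drhs, pow_two]
  · have : (∑ k : Fin 2, ∑ j : Fin 6, ((fderiv ℝ (fun X => f X α) X (Pi.single k (Pi.single j 1)) i : ℝ) : ℂ) * Y k j).im =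
        ∑ k : Fin 2, ∑ j : Fin 6, fderiv ℝ (fun X => f X α) X (Pi.single k (Pi.single j 1)) i * (Y k j).im := by
      simp
    rw [this, h2]
    fin_cases i <;> simp [df, drhs, pow_two]

end Pool.Agent.X98.DDE
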